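import Pool.Agent.H27.ZF.TA

/-!
Board zf, row LOC: all coefficients of a local factor from `m` consecutive ones far out.
-/

set_option autoImplicit false

namespace Pool.Agent.H37.ZF

open Pool.Agent.H27.ZF

/-- the product of the factors `1 - a X` -/
noncomputable def pr (s : Multiset ℂ) : PowerSeries ℂ :=
  (s.map (fun a => 1 - PowerSeries.C a * PowerSeries.X)).prod

theorem pr_zero : pr 0 = 1 := by simp [pr]

theorem pr_cons (a : ℂ) (s : Multiset ℂ) :
    pr (a ::ₘ s) = (1 - PowerSeries.C a * PowerSeries.X) * pr s := by simp [pr]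

theorem cz (a : ℂ) (H : PowerSeries ℂ) :
    PowerSeries.coeff 0 ((1 - PowerSeries.C a * PowerSeries.X) * H) = PowerSeries.coeff 0 H := by
  rw [sub_mul, one_mul, mul_assoc, map_sub, PowerSeries.coeff_C_mul, PowerSeries.coeff_zero_X_mul]
  simp

theorem cs (a : ℂ) (H : PowerSeries ℂ) (n : ℕ) :
    PowerSeries.coeff (n + 1) ((1 - PowerSeries.C a * PowerSeries.X) * H) =
      PowerSeries.coeff (n + 1) H - a * PowerSeries.coeff n H := by
  rw [sub_mul, one_mul, mul_assoc, map_sub, PowerSeries.coeff_C_mul, PowerSeries.coeff_succ_X_mul]

theorem pr_bd (R : ℝ) (hR : 0 ≤ R) (s : Multiset ℂ) (hs : ∀ a ∈ s, ‖a‖ ≤ R) :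
    ∀ i, ‖PowerSeries.coeff i (pr s)‖ ≤ ((Multiset.card s).choose i : ℝ) * R ^ i := by
  induction s using Multiset.induction_on with
  | empty =>
    intro i
    rw [pr_zero]
    rcases i with _ | i
    · simp
    · rw [PowerSeries.coeff_one]
      simp
  | cons a s ih =>
    intro i
    have ih' := ih (fun b hb => hs b (Multiset.mem_cons_of_mem hb))
    have ha := hs a (Multiset.mem_cons_self a s)
    rw [pr_cons, Multiset.card_cons]
    rcases i with _ | i
    · rw [cz]
      simpa using ih' 0
    · rw [cs]
      calc ‖PowerSeries.coeff (i + 1) (pr s) - a * PowerSeries.coeff i (pr s)‖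
          ≤ ‖PowerSeries.coeff (i + 1) (pr s)‖ + ‖a‖ * ‖PowerSeries.coeff i (pr s)‖ := by
            rw [← norm_mul]; exact norm_sub_le _ _
        _ ≤ ((Multiset.card s).choose (i + 1) : ℝ) * R ^ (i + 1) +
            R * (((Multiset.card s).choose i : ℝ) * R ^ i) := by
            have h1 := ih' (i + 1)
            have h2 := ih' i
            gcongr
        _ = (((Multiset.card s) + 1).choose (i + 1) : ℝ) * R ^ (i + 1) := by
            rw [Nat.choose_succ_succ]
            push_cast
            ring

theorem inv_bd (R : ℝ) (hR : 0 ≤ R) (s : Multiset ℂ) (hs : ∀ a ∈ s, ‖a‖ ≤ R) :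
    ∀ H : PowerSeries ℂ, pr s * H = 1 → ∀ k, ‖PowerSeries.coeff k H‖ ≤
      ((Multiset.card s + k).choose k : ℝ) * R ^ k := by
  induction s using Multiset.induction_on with
  | empty =>
    intro H hH k
    rw [pr_zero, one_mul] at hH
    rw [hH]
    rcases k with _ | k
    · simp
    · rw [PowerSeries.coeff_one]
      simp
      positivity
  | cons a s ih =>
    intro H hH k
    have ha := hs a (Multiset.mem_cons_self a s)
    have ih' := ih (fun b hb => hs b (Multiset.mem_cons_of_mem hb))
      ((1 - PowerSeries.C a * PowerSeries.X) * H) (by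
        refine Eq.trans ?_ hH
        rw [pr_cons]; ring)
    rw [Multiset.card_cons]
    induction k with
    | zero =>
      have h0 := ih' 0
      rw [cz] at h0
      simpa using h0
    | succ k ihk =>
      have h1 := ih' (k + 1)
      rw [cs] at h1
      have e : PowerSeries.coeff (k + 1) H =
          (PowerSeries.coeff (k + 1) H - a * PowerSeries.coeff k H) + a * PowerSeries.coeff k H := by
        ring
      rw [e]
      calc _ ≤ ‖PowerSeries.coeff (k + 1) H - a * PowerSeries.coeff k H‖ +
            ‖a‖ * ‖PowerSeries.coeff k H‖ := by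
            rw [← norm_mul]; exact norm_add_le _ _
        _ ≤ ((Multiset.card s + (k + 1)).choose (k + 1) : ℝ) * R ^ (k + 1) +
            R * (((Multiset.card s + 1 + k).choose k : ℝ) * R ^ k) := by
            gcongr
        _ = ((Multiset.card s + 1 + (k + 1)).choose (k + 1) : ℝ) * R ^ (k + 1) := by
            have h2 : Multiset.card s + 1 + (k + 1) = (Multiset.card s + 1 + k) + 1 := by ring
            have h3 : Multiset.card s + (k + 1) = Multiset.card s + 1 + k := by ring
            rw [h2, Nat.choose_succ_succ, h3]
            push_cast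
            ring

/-- the local factor in terms of its roots -/
theorem exists_pr (m : ℕ) (h q : ℕ → ℂ) (hI : Inv m h q) :
    ∃ s : Multiset ℂ, Multiset.card s ≤ m ∧ pr s = PowerSeries.mk q := by
  classical
  set P : Polynomial ℂ := ∑ j ∈ Finset.range (m + 1), Polynomial.C (q j) * Polynomial.X ^ j with hP
  have hc : ∀ j, P.coeff j = q j := by
    intro j
    rw [hP, Polynomial.finsetSum_coeff]
    simp only [Polynomial.coeff_C_mul, Polynomial.coeff_X_pow]
    by_cases hj : j < m + 1
    · rw [Finset.sum_eq_single j]
      · simp
      · intro b _ hb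
        simp [Ne.symm hb]
      · intro hb
        exact absurd (Finset.mem_range.mpr hj) hb
    · rw [hI.deg j (by omega)]
      apply Finset.sum_eq_zero
      intro b hb
      have : j ≠ b := by have := Finset.mem_range.mp hb; omega
      simp [this]
  have hd : P.natDegree ≤ m := by
    rw [Polynomial.natDegree_le_iff_coeff_eq_zero]
    intro N hN
    rw [hc, hI.deg N hN]
  have h0 : P.coeff 0 = 1 := by rw [hc, hI.q0]
  have hP0 : P ≠ 0 := by
    intro e
    rw [e] at h0
    simp at h0
  have hs : P = Polynomial.C P.leadingCoeff * (P.roots.map (fun a => Polynomial.X - Polynomial.C a)).prod :=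
    (IsAlgClosed.splits P).eq_prod_roots
  have hr : ∀ a ∈ P.roots, a ≠ 0 := by
    intro a ha e
    have := (Polynomial.mem_roots hP0).mp ha
    rw [e, Polynomial.IsRoot.def, ← Polynomial.coeff_zero_eq_eval_zero, h0] at this
    exact one_ne_zero this
  -- general identity
  have key : ∀ t : Multiset ℂ, (∀ a ∈ t, a ≠ 0) →
      ((t.map (fun a => Polynomial.X - Polynomial.C a)).prod : Polynomial ℂ) =
      Polynomial.C ((t.map (fun a => -a)).prod) *
        ((t.map (fun a => 1 - Polynomial.C a⁻¹ * Polynomial.X)).prod) := by
    intro t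
    induction t using Multiset.induction_on with
    | empty => intro _; simp
    | cons a t ih =>
      intro ht
      have ha := ht a (Multiset.mem_cons_self a t)
      have ih' := ih (fun b hb => ht b (Multiset.mem_cons_of_mem hb))
      rw [Multiset.map_cons, Multiset.prod_cons, ih', Multiset.map_cons, Multiset.prod_cons,
        Multiset.map_cons, Multiset.prod_cons, Polynomial.C_mul]
      have e : (Polynomial.X - Polynomial.C a : Polynomial ℂ) =
          Polynomial.C (-a) * (1 - Polynomial.C a⁻¹ * Polynomial.X) := by
        rw [mul_sub, mul_one, ← mul_assoc, ← Polynomial.C_mul, neg_mul, mul_inv_cancel₀ ha]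
        simp
        ring
      rw [e]
      ring
  have hk := key P.roots hr
  set T : Polynomial ℂ := ((P.roots.map (fun a => 1 - Polynomial.C a⁻¹ * Polynomial.X)).prod) with hT
  have hT0 : T.coeff 0 = 1 := by
    rw [Polynomial.coeff_zero_eq_eval_zero, hT, Polynomial.eval_multiset_prod, Multiset.map_map]
    apply Multiset.prod_eq_one
    intro x hx
    obtain ⟨a, _, rfl⟩ := Multiset.mem_map.mp hx
    simp
  have hPT : P = T := by
    have e1 : P = Polynomial.C (P.leadingCoeff * (P.roots.map (fun a => -a)).prod) * T := by
      rw [Polynomial.C_mul, mul_assoc, ← hk]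
      exact hs
    have e2 : P.leadingCoeff * (P.roots.map (fun a => -a)).prod = 1 := by
      have := congrArg (fun p => Polynomial.coeff p 0) e1
      simp only [Polynomial.coeff_C_mul, hT0, h0, mul_one] at this
      exact this.symm
    rw [e2] at e1
    simpa using e1
  refine ⟨P.roots.map (fun a => a⁻¹), ?_, ?_⟩
  · rw [Multiset.card_map]
    exact (Polynomial.card_roots' P).trans hd
  · have e3 : (T : PowerSeries ℂ) = pr (P.roots.map (fun a => a⁻¹)) := by
      rw [hT, pr, Multiset.map_map]
      have : ∀ t : Multiset ℂ,
          (((t.map (fun a => 1 - Polynomial.C a⁻¹ * Polynomial.X)).prod : Polynomial ℂ) : PowerSeries ℂ) =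
          (t.map ((fun a => 1 - PowerSeries.C a * PowerSeries.X) ∘ (fun a => a⁻¹))).prod := by
        intro t
        induction t using Multiset.induction_on with
        | empty => simp
        | cons a t ih =>
          rw [Multiset.map_cons, Multiset.prod_cons, Multiset.map_cons, Multiset.prod_cons,
            Polynomial.coe_mul, ih]
          simp
      exact this _
    rw [← e3, ← hPT]
    ext n
    rw [Polynomial.coeff_coe, hc, PowerSeries.coeff_mk]

theorem pf_LOC : T_LOC := by
  intro m J h q B hm hI hB hJ hh k
  obtain ⟨s, hsm, hs⟩ := exists_pr m h q hI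
  have hmul : pr s * PowerSeries.mk h = 1 := by
    rw [hs]
    ext n
    rw [PowerSeries.coeff_mul, Finset.Nat.sum_antidiagonal_eq_sum_range_succ_mk]
    simp only [PowerSeries.coeff_mk]
    rcases Nat.eq_zero_or_pos n with rfl | hn
    · simp [hI.h0, hI.q0]
    · rw [hI.conv n hn, PowerSeries.coeff_one, if_neg (by omega)]
  have hall : ∀ a ∈ s, ‖a‖ ≤ 2 * B := by
    by_contra hcon
    push Not at hcon
    obtain ⟨a0, ha0, ha0B⟩ := hcon
    obtain ⟨a, ha, hmax⟩ := Multiset.exists_max_image (fun z : ℂ => ‖z‖) (s := s)
      (by rintro rfl; simp at ha0)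
    obtain ⟨t, rfl⟩ := Multiset.exists_cons_of_mem ha
    set ρ : ℝ := ‖a‖ with hρ
    have hρB : 2 * B < ρ := lt_of_lt_of_le ha0B (hmax a0 ha0)
    have hρ0 : 0 < ρ := by linarith
    have hct : Multiset.card t + 1 ≤ m := by rw [← Multiset.card_cons a t]; exact hsm
    have hbt := pr_bd ρ hρ0.le t (fun b hb => hmax b (Multiset.mem_cons_of_mem hb))
    -- the geometric series
    have hG : ∀ n, PowerSeries.coeff n (pr t * PowerSeries.mk h) = a ^ n := by
      have h1 : (1 - PowerSeries.C a * PowerSeries.X) * (pr t * PowerSeries.mk h) = 1 := by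
        refine Eq.trans ?_ hmul
        rw [pr_cons]; ring
      intro n
      induction n with
      | zero =>
        have := congrArg (PowerSeries.coeff 0) h1
        rw [cz] at this
        simpa using this
      | succ n ih =>
        have := congrArg (PowerSeries.coeff (n + 1)) h1
        rw [cs, PowerSeries.coeff_one, if_neg (by omega), ih] at this
        rw [pow_succ]
        linear_combination this
    have h2 : ρ ^ J ≤ ∑ i ∈ Finset.range (J + 1), ((Multiset.card t).choose i : ℝ) * ρ ^ i * B ^ (J - i) := by
      calc ρ ^ J = ‖PowerSeries.coeff J (pr t * PowerSeries.mk h)‖ := by rw [hG, norm_pow]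
        _ ≤ ∑ i ∈ Finset.range (J + 1), ‖PowerSeries.coeff i (pr t) * h (J - i)‖ := by
            rw [PowerSeries.coeff_mul, Finset.Nat.sum_antidiagonal_eq_sum_range_succ_mk]
            simp only [PowerSeries.coeff_mk]
            exact norm_sum_le _ _
        _ ≤ _ := by
            apply Finset.sum_le_sum
            intro i hi
            rw [norm_mul]
            by_cases him : i < m
            · have h3 := hh i him
              have h4 := hbt i
              gcongr
            · have h5 : (Multiset.card t).choose i = 0 := Nat.choose_eq_zero_of_lt (by omega)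
              have h6 := hbt i
              rw [h5] at h6 ⊢
              simp only [Nat.cast_zero, zero_mul] at h6 ⊢
              have h7 : ‖PowerSeries.coeff i (pr t)‖ = 0 := le_antisymm h6 (norm_nonneg _)
              rw [h7, zero_mul]
    have h3 : ∑ i ∈ Finset.range (J + 1), ((Multiset.card t).choose i : ℝ) * ρ ^ i * B ^ (J - i) =
        B ^ (J - Multiset.card t) * (ρ + B) ^ (Multiset.card t) := by
      rw [add_pow, Finset.mul_sum]
      symm
      apply Finset.sum_subset_zero_on_sdiff (f := fun i => B ^ (J - Multiset.card t) *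
        (ρ ^ i * B ^ (Multiset.card t - i) * ((Multiset.card t).choose i : ℝ)))
        (g := fun i => ((Multiset.card t).choose i : ℝ) * ρ ^ i * B ^ (J - i))
      · intro i hi
        simp only [Finset.mem_range] at hi ⊢
        omega
      · intro i hi
        simp only [Finset.mem_sdiff, Finset.mem_range] at hi
        have : (Multiset.card t).choose i = 0 := Nat.choose_eq_zero_of_lt (by omega)
        rw [this]
        simp
      · intro i hi
        simp only [Finset.mem_range] at hi
        have e : J - i = (J - Multiset.card t) + (Multiset.card t - i) := by omega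
        rw [e, pow_add]
        ring
    have h4 : B ^ (J - Multiset.card t) * (ρ + B) ^ (Multiset.card t) =
        B ^ (J - 2 * Multiset.card t) * ((ρ + B) * B) ^ (Multiset.card t) := by
      have e : J - Multiset.card t = (J - 2 * Multiset.card t) + Multiset.card t := by omega
      rw [e, pow_add, mul_pow]
      ring
    have h5 : B ^ (J - 2 * Multiset.card t) < ρ ^ (J - 2 * Multiset.card t) :=
      pow_lt_pow_left₀ (by linarith) hB.le (by omega)
    have h6 : ((ρ + B) * B) ^ (Multiset.card t) ≤ (ρ ^ 2) ^ (Multiset.card t) := by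
      apply pow_le_pow_left₀ (by positivity)
      nlinarith
    have h7 : ρ ^ J = ρ ^ (J - 2 * Multiset.card t) * (ρ ^ 2) ^ (Multiset.card t) := by
      rw [← pow_mul, ← pow_add]
      congr 1
      omega
    have h8 : B ^ (J - 2 * Multiset.card t) * ((ρ + B) * B) ^ (Multiset.card t) <
        ρ ^ (J - 2 * Multiset.card t) * (ρ ^ 2) ^ (Multiset.card t) :=
      mul_lt_mul h5 h6 (by positivity) (by positivity)
    rw [h3, h4] at h2
    rw [← h7] at h8
    exact absurd h2 (not_le.mpr h8)
  have hfin := inv_bd (2 * B) (by linarith) s hall (PowerSeries.mk h) hmul k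
  rw [PowerSeries.coeff_mk] at hfin
  refine hfin.trans ?_
  have : (Multiset.card s + k).choose k ≤ (m + k).choose k := Nat.choose_le_choose k (by omega)
  gcongr

end Pool.Agent.H37.ZF
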