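import Pool.Agent.H37.ZF.LOC

/-!
Row LOS: all coefficients of a local factor from `m` consecutive ones very far out, any factor larger than `1`.
-/

set_option autoImplicit false

namespace Pool.Agent.H37.ZF

open Pool.Agent.H27.ZF

theorem los (m : ℕ) (rho : ℝ) (_hm : 1 ≤ m) (hrho : 1 < rho) : ∃ J0 : ℕ, 2 * m ≤ J0 ∧
    ∀ (J : ℕ) (h q : ℕ → ℂ) (B : ℝ), Inv m h q → 0 < B → J0 ≤ J →
    (∀ r, r < m → ‖h (J - r)‖ ≤ B ^ (J - r)) →
    ∀ k, ‖h k‖ ≤ ((m + k).choose k : ℝ) * (rho * B) ^ k := by
  obtain ⟨n0, hn0⟩ := pow_unbounded_of_one_lt ((2 : ℝ) ^ m) hrho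
  refine ⟨n0 + 2 * m, by omega, ?_⟩
  intro J h q B hI hB hJ hh k
  obtain ⟨s, hsm, hs⟩ := exists_pr m h q hI
  have hrho0 : 0 < rho := by linarith
  have hmul : pr s * PowerSeries.mk h = 1 := by
    rw [hs]
    ext n
    rw [PowerSeries.coeff_mul, Finset.Nat.sum_antidiagonal_eq_sum_range_succ_mk]
    simp only [PowerSeries.coeff_mk]
    rcases Nat.eq_zero_or_pos n with rfl | hn
    · simp [hI.h0, hI.q0]
    · rw [hI.conv n hn, PowerSeries.coeff_one, if_neg (by omega)]
  have hall : ∀ a ∈ s, ‖a‖ ≤ rho * B := by
    by_contra hcon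
    push Not at hcon
    obtain ⟨a0, ha0, ha0B⟩ := hcon
    obtain ⟨a, ha, hmax⟩ := Multiset.exists_max_image (fun z : ℂ => ‖z‖) (s := s)
      (by rintro rfl; simp at ha0)
    obtain ⟨t, rfl⟩ := Multiset.exists_cons_of_mem ha
    set R : ℝ := ‖a‖ with hR
    have hRB : rho * B < R := lt_of_lt_of_le ha0B (hmax a0 ha0)
    have hBR : B < R := by nlinarith
    have hR0 : 0 < R := by linarith
    have hct : Multiset.card t + 1 ≤ m := by rw [← Multiset.card_cons a t]; exact hsm
    have hbt := pr_bd R hR0.le t (fun b hb => hmax b (Multiset.mem_cons_of_mem hb))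
    have hG : ∀ n, PowerSeries.coeff n (pr t * PowerSeries.mk h) = a ^ n := by
      have h1 : (1 - PowerSeries.C a * PowerSeries.X) * (pr t * PowerSeries.mk h) = 1 := by
        refine Eq.trans ?_ hmul
        rw [pr_cons]; ring
      intro n
      induction n with
      | zero =>
        have := congrArg (PowerSeries.coeff 0) h1
        rw [cz] at this
        simpa using this
      | succ n ih =>
        have := congrArg (PowerSeries.coeff (n + 1)) h1
        rw [cs, PowerSeries.coeff_one, if_neg (by omega), ih] at this
        rw [pow_succ]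
        linear_combination this
    have h2 : R ^ J ≤ ∑ i ∈ Finset.range (J + 1),
        ((Multiset.card t).choose i : ℝ) * R ^ i * B ^ (J - i) := by
      calc R ^ J = ‖PowerSeries.coeff J (pr t * PowerSeries.mk h)‖ := by rw [hG, norm_pow]
        _ ≤ ∑ i ∈ Finset.range (J + 1), ‖PowerSeries.coeff i (pr t) * h (J - i)‖ := by
            rw [PowerSeries.coeff_mul, Finset.Nat.sum_antidiagonal_eq_sum_range_succ_mk]
            simp only [PowerSeries.coeff_mk]
            exact norm_sum_le _ _
        _ ≤ _ := by
            apply Finset.sum_le_sum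
            intro i hi
            rw [norm_mul]
            by_cases him : i < m
            · have h3 := hh i him
              have h4 := hbt i
              gcongr
            · have h5 : (Multiset.card t).choose i = 0 := Nat.choose_eq_zero_of_lt (by omega)
              have h6 := hbt i
              rw [h5] at h6 ⊢
              simp only [Nat.cast_zero, zero_mul] at h6 ⊢
              have h7 : ‖PowerSeries.coeff i (pr t)‖ = 0 := le_antisymm h6 (norm_nonneg _)
              rw [h7, zero_mul]
    have h3 : ∑ i ∈ Finset.range (J + 1), ((Multiset.card t).choose i : ℝ) * R ^ i * B ^ (J - i) =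
        B ^ (J - Multiset.card t) * (R + B) ^ (Multiset.card t) := by
      rw [add_pow, Finset.mul_sum]
      symm
      apply Finset.sum_subset_zero_on_sdiff (f := fun i => B ^ (J - Multiset.card t) *
        (R ^ i * B ^ (Multiset.card t - i) * ((Multiset.card t).choose i : ℝ)))
        (g := fun i => ((Multiset.card t).choose i : ℝ) * R ^ i * B ^ (J - i))
      · intro i hi
        simp only [Finset.mem_range] at hi ⊢
        omega
      · intro i hi
        simp only [Finset.mem_sdiff, Finset.mem_range] at hi
        have : (Multiset.card t).choose i = 0 := Nat.choose_eq_zero_of_lt (by omega)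
        rw [this]
        simp
      · intro i hi
        simp only [Finset.mem_range] at hi
        have e : J - i = (J - Multiset.card t) + (Multiset.card t - i) := by omega
        rw [e, pow_add]
        ring
    rw [h3] at h2
    have h4 : (R + B) ^ (Multiset.card t) ≤ 2 ^ (Multiset.card t) * R ^ (Multiset.card t) := by
      rw [← mul_pow]
      exact pow_le_pow_left₀ (by positivity) (by linarith) _
    have h5 : R ^ J = R ^ (J - Multiset.card t) * R ^ (Multiset.card t) := by
      rw [← pow_add]
      congr 1
      omega
    have h6 : R ^ (J - Multiset.card t) ≤ B ^ (J - Multiset.card t) * 2 ^ (Multiset.card t) := by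
      have hRt : 0 < R ^ (Multiset.card t) := by positivity
      refine le_of_mul_le_mul_right ?_ hRt
      rw [← h5]
      calc R ^ J ≤ B ^ (J - Multiset.card t) * (R + B) ^ (Multiset.card t) := h2
        _ ≤ B ^ (J - Multiset.card t) * (2 ^ (Multiset.card t) * R ^ (Multiset.card t)) := by
            gcongr
        _ = _ := by ring
    have h7 : (rho * B) ^ (J - Multiset.card t) < R ^ (J - Multiset.card t) :=
      pow_lt_pow_left₀ hRB (by positivity) (by omega)
    have h8 : (2 : ℝ) ^ (Multiset.card t) ≤ rho ^ (J - Multiset.card t) := by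
      calc (2 : ℝ) ^ (Multiset.card t) ≤ 2 ^ m := pow_le_pow_right₀ (by norm_num) (by omega)
        _ ≤ rho ^ n0 := hn0.le
        _ ≤ rho ^ (J - Multiset.card t) := pow_le_pow_right₀ hrho.le (by omega)
    have h9 : (rho * B) ^ (J - Multiset.card t) < (rho * B) ^ (J - Multiset.card t) := by
      calc (rho * B) ^ (J - Multiset.card t) < R ^ (J - Multiset.card t) := h7
        _ ≤ B ^ (J - Multiset.card t) * 2 ^ (Multiset.card t) := h6
        _ ≤ B ^ (J - Multiset.card t) * rho ^ (J - Multiset.card t) := by gcongr
        _ = _ := by rw [mul_pow]; ring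
    exact lt_irrefl _ h9
  have hfin := inv_bd (rho * B) (by positivity) s hall (PowerSeries.mk h) hmul k
  rw [PowerSeries.coeff_mk] at hfin
  refine hfin.trans ?_
  have : (Multiset.card s + k).choose k ≤ (m + k).choose k := Nat.choose_le_choose k (by omega)
  gcongr

end Pool.Agent.H37.ZF
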